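import Pool.Agent.Helper63.ST.Defs
import Pool.Agent.Helper72.ST.ST11ab

set_option autoImplicit false

namespace Pool.Agent.ST

open Subgroup
open scoped commutatorElement

/-- in a group where `⁅x, y⁆` is central -/
theorem st11c_mul_left {N : Type} [Group N] {x x' y : N} (h : ⁅x', y⁆ ∈ center N) :
    ⁅x * x', y⁆ = ⁅x, y⁆ * ⁅x', y⁆ := by
  rw [commutatorElement_mul_left_eq_conj_mul]
  have h1 : x * ⁅x', y⁆ * x⁻¹ = ⁅x', y⁆ := by
    rw [(mem_center_iff.1 h x), mul_inv_cancel_right]
  rw [h1]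
  exact (mem_center_iff.1 h _).symm

theorem st11c_mul_right {N : Type} [Group N] {x y y' : N} (h : ⁅x, y'⁆ ∈ center N) :
    ⁅x, y * y'⁆ = ⁅x, y⁆ * ⁅x, y'⁆ := by
  rw [commutatorElement_mul_right_eq_mul_conj]
  have h1 : y * ⁅x, y'⁆ * y⁻¹ = ⁅x, y'⁆ := by
    rw [(mem_center_iff.1 h y), mul_inv_cancel_right]
  rw [mul_assoc, mul_assoc, ← mul_assoc y, h1]

/-- finite generation of `γ i` modulo `γ (i+1)` up to `m`-power torsion -/
def LPMin (m : ℕ) (M : Type) [Group M] (i : ℕ) : Prop :=
  ∃ s : Finset M, (∀ a ∈ s, a ∈ (⊤ : Subgroup M).lowerCentralSeries i) ∧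
    ∀ x ∈ (⊤ : Subgroup M).lowerCentralSeries i, ∃ j : ℕ,
      x ^ (m ^ j) ∈ closure (s : Set M) ⊔ (⊤ : Subgroup M).lowerCentralSeries (i + 1)

theorem lpmin_zero {M : Type} [Group M] {m : ℕ} (h : PMin m (Additive (Abelianization M))) :
    LPMin m M 0 := by
  classical
  obtain ⟨s, hs⟩ := h
  choose f hf using fun b : Additive (Abelianization M) =>
    QuotientGroup.mk_surjective (Additive.toMul b)
  refine ⟨s.image f, fun a _ => ?_, fun x _ => ?_⟩
  · rw [Subgroup.lowerCentralSeries_zero]; trivial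
  · obtain ⟨j, hj⟩ := hs (Additive.ofMul (Abelianization.of x))
    refine ⟨j, ?_⟩
    rw [zero_add, top_lowerCentralSeries_one]
    have hcl : ∀ b ∈ AddSubgroup.closure (s : Set (Additive (Abelianization M))),
        ∀ y : M, Additive.ofMul (Abelianization.of y) = b →
          y ∈ closure ((s.image f : Finset M) : Set M) ⊔ commutator M := by
      intro b hb
      have hmem : ∃ z ∈ closure ((s.image f : Finset M) : Set M),
          Additive.ofMul (Abelianization.of z) = b := by
        induction hb using AddSubgroup.closure_induction with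
        | mem c hc =>
          exact ⟨f c, subset_closure (by simpa using ⟨c, hc, rfl⟩), hf c⟩
        | zero => exact ⟨1, one_mem _, by simp⟩
        | add c d _ _ hc hd =>
          obtain ⟨z, hz, rfl⟩ := hc
          obtain ⟨w, hw, rfl⟩ := hd
          exact ⟨z * w, mul_mem hz hw, by simp⟩
        | neg c _ hc =>
          obtain ⟨z, hz, rfl⟩ := hc
          exact ⟨z⁻¹, inv_mem hz, by simp⟩
      obtain ⟨z, hz, hzb⟩ := hmem
      intro y hy
      have h1 : Abelianization.of y = Abelianization.of z :=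
        Additive.ofMul.injective (hy.trans hzb.symm)
      have h2 : z⁻¹ * y ∈ commutator M := (QuotientGroup.eq (s := commutator M)).1 h1.symm
      have h3 : y = z * (z⁻¹ * y) := by group
      rw [h3]
      exact mul_mem (mem_sup_left hz) (mem_sup_right h2)
    refine hcl _ hj _ ?_
    simp

theorem lpmin_succ {M : Type} [Group M] {m : ℕ} (h0 : LPMin m M 0) {i : ℕ} (hi : LPMin m M i) :
    LPMin m M (i + 1) := by
  classical
  obtain ⟨s0, -, h0⟩ := h0
  obtain ⟨s, hs, hsx⟩ := hi
  let γ := (⊤ : Subgroup M).lowerCentralSeries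
  have hγn : ∀ n, (γ n).Normal := fun n => by
    have := lowerCentralSeries_characteristic (⊤ : Subgroup M) n
    exact inferInstanceAs ((⊤ : Subgroup M).lowerCentralSeries n).Normal
  have hcomm : ∀ n, ∀ p ∈ γ n, ∀ q : M, ⁅p, q⁆ ∈ γ (n + 1) := fun n p hp q =>
    commutator_mem_commutator hp (mem_top q)
  let t : Finset M := (s ×ˢ s0).image fun a => ⁅a.1, a.2⁆
  refine ⟨t, ?_, ?_⟩
  · intro a ha
    obtain ⟨⟨p, q⟩, hpq, rfl⟩ := Finset.mem_image.1 ha
    exact hcomm i p (hs p (Finset.mem_product.1 hpq).1) q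
  have := hγn (i + 2)
  let π : M →* M ⧸ γ (i + 2) := QuotientGroup.mk' (γ (i + 2))
  have hπ : ∀ x, π x = 1 ↔ x ∈ γ (i + 2) := fun x => QuotientGroup.eq_one_iff x
  have hcen : ∀ x ∈ γ (i + 1), π x ∈ center (M ⧸ γ (i + 2)) := by
    intro x hx
    rw [mem_center_iff]
    intro z
    obtain ⟨z, rfl⟩ := QuotientGroup.mk'_surjective (γ (i + 2)) z
    have h1 : ⁅π x, π z⁆ = 1 := by
      rw [← map_commutatorElement, hπ]
      exact hcomm (i + 1) x hx z
    exact (commutatorElement_eq_one_iff_mul_comm.1 h1).symm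
  have hcen2 : ∀ p ∈ γ i, ∀ q : M, ⁅π p, π q⁆ ∈ center (M ⧸ γ (i + 2)) := by
    intro p hp q
    rw [← map_commutatorElement]
    exact hcen _ (hcomm i p hp q)
  -- the subgroup of central elements with a power in the closure of `t`
  let E : Subgroup (M ⧸ γ (i + 2)) := (closure (t : Set M)).map π
  let T : Subgroup (M ⧸ γ (i + 2)) :=
    { carrier := {z | z ∈ center (M ⧸ γ (i + 2)) ∧ ∃ j : ℕ, z ^ (m ^ j) ∈ E}
      one_mem' := ⟨one_mem _, 0, by simp⟩
      mul_mem' := by
        rintro a b ⟨ha, j, haj⟩ ⟨hb, k, hbk⟩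
        refine ⟨mul_mem ha hb, j + k, ?_⟩
        have hab : Commute a b := (mem_center_iff.1 hb a)
        rw [hab.mul_pow]
        refine mul_mem ?_ ?_
        · rw [pow_add, pow_mul]; exact pow_mem haj _
        · rw [pow_add, mul_comm, pow_mul]; exact pow_mem hbk _
      inv_mem' := by
        rintro a ⟨ha, j, haj⟩
        exact ⟨inv_mem ha, j, by rw [inv_pow]; exact inv_mem haj⟩ }
  have hTroot : ∀ z ∈ center (M ⧸ γ (i + 2)), ∀ j, z ^ (m ^ j) ∈ T → z ∈ T := by
    rintro z hz j ⟨-, k, hk⟩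
    exact ⟨hz, j + k, by rw [pow_add, pow_mul]; exact hk⟩
  -- step (a)
  have stepa : ∀ a ∈ s, ∀ q : M, ⁅π a, π q⁆ ∈ T := by
    intro a ha q
    have haγ := hs a ha
    let f : M →* M ⧸ γ (i + 2) :=
      { toFun := fun q => ⁅π a, π q⁆
        map_one' := by simp
        map_mul' := fun x y => by
          rw [map_mul]
          exact st11c_mul_right (hcen2 a haγ y) }
    have hfc : ∀ x, f x ∈ center (M ⧸ γ (i + 2)) := fun x => hcen2 a haγ x
    obtain ⟨k, hk⟩ := h0 q (by rw [Subgroup.lowerCentralSeries_zero]; trivial)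
    refine hTroot _ (hfc q) k ?_
    show (f q) ^ (m ^ k) ∈ T
    rw [← map_pow]
    have hle : closure (s0 : Set M) ⊔ γ (0 + 1) ≤ T.comap f := by
      refine sup_le ?_ ?_
      · rw [closure_le]
        intro c hc
        refine ⟨hfc c, 0, ?_⟩
        rw [pow_zero, pow_one]
        refine ⟨⁅a, c⁆, subset_closure ?_, map_commutatorElement π a c⟩
        exact Finset.mem_coe.2 (Finset.mem_image.2 ⟨(a, c), Finset.mem_product.2 ⟨ha, hc⟩, rfl⟩)
      · show ⁅γ 0, ⊤⁆ ≤ _
        rw [commutator_le]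
        intro u _ v _
        have h1 : f ⁅u, v⁆ = 1 := by
          rw [map_commutatorElement, commutatorElement_eq_one_iff_mul_comm]
          exact (mem_center_iff.1 (hfc v) _)
        show f ⁅u, v⁆ ∈ T
        rw [h1]; exact one_mem _
    exact hle hk
  -- step (b)
  have stepb : ∀ p ∈ γ i, ∀ q : M, ⁅π p, π q⁆ ∈ T := by
    intro p hp q
    let g : γ i →* M ⧸ γ (i + 2) :=
      { toFun := fun p => ⁅π p, π q⁆
        map_one' := by simp
        map_mul' := fun x y => by
          show ⁅π ((x : M) * (y : M)), π q⁆ = _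
          rw [map_mul]
          exact st11c_mul_left (hcen2 y y.2 q) }
    obtain ⟨j, hj⟩ := hsx p hp
    refine hTroot _ (hcen2 p hp q) j ?_
    have h1 : ⁅π p, π q⁆ ^ (m ^ j) = ⁅π (p ^ (m ^ j)), π q⁆ := by
      have := map_pow g ⟨p, hp⟩ (m ^ j)
      exact this.symm
    rw [h1]
    -- elements of `closure s ⊔ γ (i+1)` inside `γ i`
    have key : ∀ x ∈ closure (s : Set M) ⊔ γ (i + 1), x ∈ γ i ∧ ⁅π x, π q⁆ ∈ T := by
      have hle : closure (s : Set M) ⊔ γ (i + 1) ≤ (T.comap g).map (γ i).subtype := by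
        refine sup_le ?_ ?_
        · rw [closure_le]
          intro a ha
          exact ⟨⟨a, hs a ha⟩, stepa a ha q, rfl⟩
        · intro x hx
          have hxi : x ∈ γ i := Subgroup.lowerCentralSeries_antitone (⊤ : Subgroup M) (Nat.le_succ i) hx
          refine ⟨⟨x, hxi⟩, ?_, rfl⟩
          have h2 : ⁅π x, π q⁆ = 1 := by
            rw [← map_commutatorElement, hπ]
            exact hcomm (i + 1) x hx q
          show ⁅π x, π q⁆ ∈ T
          rw [h2]; exact one_mem _
      intro x hx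
      obtain ⟨y, hy, rfl⟩ := hle hx
      exact ⟨y.2, hy⟩
    exact (key _ hj).2
  -- conclusion
  intro x hx
  have hx' : x ∈ T.comap π := by
    have hle : γ (i + 1) ≤ T.comap π := by
      show ⁅γ i, ⊤⁆ ≤ _
      rw [commutator_le]
      intro p hp q _
      show π ⁅p, q⁆ ∈ T
      rw [map_commutatorElement]
      exact stepb p hp q
    exact hle hx
  obtain ⟨-, j, hj⟩ := hx'
  refine ⟨j, ?_⟩
  rw [← map_pow] at hj
  obtain ⟨y, hy, hyx⟩ := hj
  have h1 : y⁻¹ * x ^ (m ^ j) ∈ γ (i + 2) := by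
    rw [← hπ, map_mul, map_inv, hyx, inv_mul_cancel]
  have h2 : x ^ (m ^ j) = y * (y⁻¹ * x ^ (m ^ j)) := by group
  rw [h2]
  exact mul_mem (mem_sup_left hy) (mem_sup_right h1)

theorem lpmin_all {M : Type} [Group M] {m : ℕ} (h : PMin m (Additive (Abelianization M))) (i : ℕ) :
    LPMin m M i := by
  induction i with
  | zero => exact lpmin_zero h
  | succ i ih => exact lpmin_succ (lpmin_zero h) ih

/-- ST-11c -/
theorem lcs_no_torsion {M : Type} [Group M] {m : ℕ} (hm : 0 < m)
    (h : PMin m (Additive (Abelianization M))) (i : ℕ) :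
    ∃ P : Finset ℕ, ∀ p : ℕ, p.Prime → p ∉ P →
      ∀ x ∈ (⊤ : Subgroup M).lowerCentralSeries i,
        x ^ p ∈ (⊤ : Subgroup M).lowerCentralSeries (i + 1) →
        x ∈ (⊤ : Subgroup M).lowerCentralSeries (i + 1) := by
  classical
  obtain ⟨s, hs, hsx⟩ := lpmin_all h i
  have hch := lowerCentralSeries_characteristic (⊤ : Subgroup M) (i + 1)
  have hn : ((⊤ : Subgroup M).lowerCentralSeries (i + 1)).Normal := inferInstance
  let π : M →* M ⧸ (⊤ : Subgroup M).lowerCentralSeries (i + 1) :=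
    QuotientGroup.mk' _
  have hπ : ∀ x, π x = 1 ↔ x ∈ (⊤ : Subgroup M).lowerCentralSeries (i + 1) :=
    fun x => QuotientGroup.eq_one_iff x
  let A : Subgroup (M ⧸ (⊤ : Subgroup M).lowerCentralSeries (i + 1)) :=
    ((⊤ : Subgroup M).lowerCentralSeries i).map π
  have hAc : ∀ a ∈ A, ∀ b, a * b = b * a := by
    rintro _ ⟨x, hx, rfl⟩ b
    obtain ⟨z, rfl⟩ := QuotientGroup.mk'_surjective _ b
    have h1 : ⁅π x, π z⁆ = 1 := by
      rw [← map_commutatorElement, hπ]
      exact commutator_mem_commutator hx (mem_top z)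
    exact commutatorElement_eq_one_iff_mul_comm.1 h1
  let _ : CommGroup A := { (inferInstance : Group A) with
    mul_comm := fun a b => Subtype.ext (hAc a a.2 b) }
  have hP : PMin m (Additive A) := by
    refine ⟨s.attach.image fun a : {x // x ∈ s} => Additive.ofMul (⟨π a.1, a.1, hs a.1 a.2, rfl⟩ : A), fun b => ?_⟩
    obtain ⟨⟨_, x, hx, rfl⟩, rfl⟩ := Additive.ofMul.surjective b
    obtain ⟨j, hj⟩ := hsx x hx
    refine ⟨j, ?_⟩
    have key : ∀ z ∈ closure (s : Set M) ⊔ (⊤ : Subgroup M).lowerCentralSeries (i + 1),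
        ∃ w : A, Additive.ofMul w ∈ AddSubgroup.closure
          ((s.attach.image fun a : {x // x ∈ s} => Additive.ofMul (⟨π a.1, a.1, hs a.1 a.2, rfl⟩ : A) :
            Finset (Additive A)) : Set (Additive A)) ∧ (w : M ⧸ _) = π z := by
      let K : AddSubgroup (Additive A) := AddSubgroup.closure
            ((s.attach.image fun a : {x // x ∈ s} => Additive.ofMul
              (⟨π a.1, a.1, hs a.1 a.2, rfl⟩ : A) : Finset (Additive A)) : Set (Additive A))
      let U : Subgroup A :=
        { carrier := {w | Additive.ofMul w ∈ K}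
          one_mem' := K.zero_mem
          mul_mem' := fun ha hb => K.add_mem ha hb
          inv_mem' := fun {w} hw => K.neg_mem (x := Additive.ofMul w) hw }
      have hle : closure (s : Set M) ⊔ (⊤ : Subgroup M).lowerCentralSeries (i + 1) ≤
          (U.map A.subtype).comap π := by
        refine sup_le ?_ ?_
        · rw [closure_le]
          intro a ha
          refine ⟨⟨π a, a, hs a ha, rfl⟩, ?_, rfl⟩
          show Additive.ofMul (⟨π a, a, hs a ha, rfl⟩ : A) ∈ K
          refine AddSubgroup.subset_closure ?_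
          exact Finset.mem_coe.2 (Finset.mem_image.2 ⟨⟨a, ha⟩, Finset.mem_attach _ _, rfl⟩)
        · intro y hy
          show π y ∈ U.map A.subtype
          rw [(hπ y).2 hy]
          exact one_mem _
      intro z hz
      obtain ⟨w, hw, hwz⟩ := hle hz
      exact ⟨w, hw, hwz⟩
    obtain ⟨w, hw, hwx⟩ := key _ hj
    have h1 : m ^ j • Additive.ofMul (⟨π x, x, hx, rfl⟩ : A) = Additive.ofMul w := by
      rw [← ofMul_pow]
      congr 1
      apply Subtype.ext
      rw [hwx, map_pow]
      rfl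
    rw [h1]
    exact hw
  obtain ⟨P, hPp⟩ := hP.no_torsion hm
  refine ⟨P, fun p hp hpP x hx hxp => ?_⟩
  have h1 := hPp p hp hpP (Additive.ofMul (⟨π x, x, hx, rfl⟩ : A)) (by
    rw [← ofMul_pow]
    have : (⟨π x, x, hx, rfl⟩ : A) ^ p = 1 := by
      apply Subtype.ext
      show (π x) ^ p = 1
      rw [← map_pow, hπ]
      exact hxp
    rw [this]
    rfl)
  have h2 : (⟨π x, x, hx, rfl⟩ : A) = 1 := Additive.ofMul.injective h1
  have h3 : π x = 1 := congrArg Subtype.val h2
  exact (hπ x).1 h3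

end Pool.Agent.ST
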