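import Pool.Agent.Helper63.ST.Defs

set_option autoImplicit false

namespace Pool.Agent.ST

open Module TensorProduct

theorem st16_card_le {B : Type} [AddCommGroup B] {r : ℕ} (hr : RankLE B r) {e : ℕ} (he : 0 < e)
    (s : Finset B) (hs : ∀ b ∈ s, e • b = 0) : s.card ≤ e ^ r := by
  classical
  obtain ⟨t, ht, hts⟩ := hr s
  have hte : ∀ b ∈ AddSubgroup.closure (s : Set B), e • b = 0 := by
    intro b hb
    induction hb using AddSubgroup.closure_induction with
    | mem x hx => exact hs x hx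
    | zero => simp
    | add x y _ _ hx hy => rw [smul_add, hx, hy, add_zero]
    | neg x _ hx => rw [smul_neg, hx, neg_zero]
  have ht' : ∀ b ∈ t, e • b = 0 := fun b hb =>
    hte b (by rw [← hts]; exact AddSubgroup.subset_closure hb)
  have : NeZero e := ⟨he.ne'⟩
  let g : (t → Fin e) → B := fun n => ∑ x : t, ((n x : ℕ)) • (x : B)
  have hsub : s ⊆ Finset.univ.image g := by
    intro b hb
    have hb' : b ∈ Submodule.span ℤ (t : Set B) := by
      have : b ∈ AddSubgroup.closure (t : Set B) := by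
        rw [hts]; exact AddSubgroup.subset_closure hb
      rw [← Submodule.span_int_eq_addSubgroupClosure] at this
      exact this
    rw [Submodule.mem_span_finset] at hb'
    obtain ⟨f, -, hf⟩ := hb'
    rw [Finset.mem_image]
    refine ⟨fun x => ⟨(f x % (e : ℤ)).toNat, ?_⟩, Finset.mem_univ _, ?_⟩
    · have h1 := Int.emod_nonneg (f x) (by exact_mod_cast he.ne' : (e : ℤ) ≠ 0)
      have h2 := Int.emod_lt_of_pos (f x) (by exact_mod_cast he : (0 : ℤ) < e)
      omega
    · rw [← hf, ← Finset.sum_coe_sort t]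
      refine Finset.sum_congr rfl fun x _ => ?_
      have h1 := Int.emod_nonneg (f x) (by exact_mod_cast he.ne' : (e : ℤ) ≠ 0)
      have h2 : ((f x % (e : ℤ)).toNat : ℤ) = f x % (e : ℤ) := Int.toNat_of_nonneg h1
      have h3 : (e : ℤ) • (x : B) = 0 := by
        rw [natCast_zsmul]; exact ht' x x.2
      show (f x % (e : ℤ)).toNat • (x : B) = f x • (x : B)
      rw [← natCast_zsmul, h2]
      conv_rhs => rw [← Int.emod_add_mul_ediv (f x) (e : ℤ)]
      rw [add_smul, mul_comm, mul_smul, h3, smul_zero, add_zero]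
  calc s.card ≤ (Finset.univ.image g).card := Finset.card_le_card hsub
    _ ≤ (Finset.univ : Finset (t → Fin e)).card := Finset.card_image_le
    _ = e ^ t.card := by simp
    _ ≤ e ^ r := Nat.pow_le_pow_right he ht

theorem st16_rank_le {B : Type} [AddCommGroup B] {r : ℕ} (hr : RankLE B r) :
    Module.rank ℤ B ≤ r := by
  classical
  refine rank_le fun s hs => ?_
  obtain ⟨t, ht, hts⟩ := hr s
  have hspan : Submodule.span ℤ (t : Set B) = Submodule.span ℤ (s : Set B) := by
    rw [← Submodule.toAddSubgroup_inj]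
    rw [Submodule.span_int_eq_addSubgroupClosure, Submodule.span_int_eq_addSubgroupClosure, hts]
  have h1 : (s.card : Cardinal.{0}) ≤ (t.card : Cardinal.{0}) := by
    have := linearIndependent_le_span' (R := ℤ) (fun i : s => (i : B)) hs (t : Set B) (by
      rintro _ ⟨x, rfl⟩
      rw [hspan]
      exact Submodule.subset_span x.2)
    simpa using this
  exact (Nat.cast_le.1 h1).trans ht

theorem st16_exists_primitive_torsion {B : Type} [AddCommGroup B] {r : ℕ} (hr : RankLE B r)
    (φ : Module.End ℤ B) : ∃ g : Polynomial ℤ, g.IsPrimitive ∧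
      ∀ b, ∃ n : ℕ, 0 < n ∧ n • (Polynomial.aeval φ g b) = 0 := by
  classical
  have hloc : IsLocalizedModule (nonZeroDivisors ℤ) (TensorProduct.mk ℤ ℚ B 1) :=
    (isLocalizedModule_iff_isBaseChange (nonZeroDivisors ℤ) ℚ _).2 (TensorProduct.isBaseChange ℤ B ℚ)
  have hrk : Module.rank ℚ (ℚ ⊗[ℤ] B) ≤ r := by
    have e1 := IsLocalization.rank_eq (R := ℤ) (S := ℚ) (N := ℚ ⊗[ℤ] B) (p := nonZeroDivisors ℤ)
      le_rfl
    have e2 := IsLocalizedModule.rank_eq (R := ℤ) (nonZeroDivisors ℤ) le_rfl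
      (TensorProduct.mk ℤ ℚ B 1)
    rw [e1]
    refine le_trans (le_of_eq ?_) (st16_rank_le hr)
    rw [← e2]
    congr!
  have : Module.Finite ℚ (ℚ ⊗[ℤ] B) := by
    rw [← Module.rank_lt_aleph0_iff]
    exact lt_of_le_of_lt hrk (Cardinal.natCast_lt_aleph0)
  let F : Module.End ℤ B →ₐ[ℤ] Module.End ℚ (ℚ ⊗[ℤ] B) := Module.End.baseChangeHom ℤ ℚ B
  have hc : Polynomial.aeval (F φ) (F φ).charpoly = 0 := LinearMap.aeval_self_charpoly _
  obtain ⟨b0, hb0, hb1⟩ := IsLocalization.integerNormalization_spec (nonZeroDivisors ℤ)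
    ((F φ).charpoly)
  set q := IsLocalization.integerNormalization (nonZeroDivisors ℤ) ((F φ).charpoly) with hq
  have hb0' : b0 ≠ 0 := nonZeroDivisors.ne_zero hb0
  have hq0 : q ≠ 0 := by
    intro h0
    rw [h0, Polynomial.map_zero] at hb1
    have := (F φ).charpoly_monic.ne_zero
    rcases smul_eq_zero.1 hb1.symm with h | h
    · exact hb0' h
    · exact this h
  have hq1 : Polynomial.aeval (F φ) q = 0 := by
    rw [← Polynomial.aeval_map_algebraMap ℚ, hb1, map_zsmul, hc, smul_zero]
  have hcont : q.content ≠ 0 := by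
    rwa [Ne, Polynomial.content_eq_zero_iff]
  have hg1 : Polynomial.aeval (F φ) q.primPart = 0 := by
    have h := hq1
    rw [q.eq_C_content_mul_primPart, map_mul, Polynomial.aeval_C] at h
    have h2 : q.content • Polynomial.aeval (F φ) q.primPart = 0 := by
      rw [← h]
      rw [Algebra.algebraMap_eq_smul_one, smul_mul_assoc, one_mul]
    rw [← Int.cast_smul_eq_zsmul ℚ] at h2
    rcases smul_eq_zero.1 h2 with h | h
    · exact absurd (by exact_mod_cast h) hcont
    · exact h
  refine ⟨q.primPart, q.isPrimitive_primPart, fun b => ?_⟩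
  have h1 : (TensorProduct.mk ℤ ℚ B 1) (Polynomial.aeval φ q.primPart b) = 0 := by
    have h2 : F (Polynomial.aeval φ q.primPart) = 0 := by
      rw [← Polynomial.aeval_algHom_apply, hg1]
    have h3 : (Polynomial.aeval φ q.primPart).baseChange ℚ ((1 : ℚ) ⊗ₜ[ℤ] b) = 0 :=
      congrArg (fun u => u ((1 : ℚ) ⊗ₜ[ℤ] b)) h2
    rwa [LinearMap.baseChange_tmul] at h3
  rw [IsLocalizedModule.eq_zero_iff (nonZeroDivisors ℤ)] at h1
  obtain ⟨c, hc⟩ := h1
  have hc0 : (c : ℤ) ≠ 0 := nonZeroDivisors.ne_zero c.2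
  refine ⟨(c : ℤ).natAbs, Int.natAbs_pos.2 hc0, ?_⟩
  have hc' : (c : ℤ) • (Polynomial.aeval φ q.primPart b) = 0 := hc
  rw [← natCast_zsmul]
  rcases Int.natAbs_eq (c : ℤ) with h | h
  · rw [← h, hc']
  · have : ((c : ℤ).natAbs : ℤ) = -(c : ℤ) := by omega
    rw [this, neg_smul, hc', neg_zero]

/-- ST-16 -/
theorem exists_primitive {Q B : Type} [CommGroup Q] [Group.FG Q] [AddCommGroup B]
    (ρ : Q →* AddMonoid.End B) (s : Finset B) (hs : GenBy ρ s) {r : ℕ} (hr : RankLE B r)
    (t : Q) : ∃ g : Polynomial ℤ, g.IsPrimitive ∧ Polynomial.aeval (ρ t) g = 0 := by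
  classical
  -- the module structure over the group ring
  let R := MonoidAlgebra ℤ Q
  have : Monoid.FG Q := Group.fg_iff_monoid_fg.1 inferInstance
  have : Algebra.FiniteType ℤ R := MonoidAlgebra.finiteType_of_fg
  have : IsNoetherianRing R := Algebra.FiniteType.isNoetherianRing ℤ R
  let Φ : R →ₐ[ℤ] AddMonoid.End B := MonoidAlgebra.lift ℤ (AddMonoid.End B) Q ρ
  let _ : Module R B := Module.compHom B Φ.toRingHom
  have hsmul : ∀ (x : R) (b : B), x • b = Φ x b := fun _ _ => rfl
  have hof : ∀ (g : Q) (b : B), (MonoidAlgebra.of ℤ Q g : R) • b = ρ g b := by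
    intro g b
    rw [hsmul]
    congr 1
    exact MonoidAlgebra.lift_of ..
  have htop : Submodule.span R (s : Set B) = ⊤ := by
    have h := hs (Submodule.span R (s : Set B)).toAddSubgroup
      (fun b hb => Submodule.subset_span hb)
      (fun g b hb => by
        rw [← hof]
        exact Submodule.smul_mem _ _ hb)
    rw [eq_top_iff]
    intro b _
    have : b ∈ (Submodule.span R (s : Set B)).toAddSubgroup := by rw [h]; trivial
    exact this
  have : Module.Finite R B := ⟨⟨s, htop⟩⟩
  have : IsNoetherian R B := isNoetherian_of_isNoetherianRing_of_finite R B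
  -- the torsion submodule
  let T : Submodule R B :=
    { carrier := {b | ∃ n : ℕ, 0 < n ∧ n • b = 0}
      zero_mem' := ⟨1, one_pos, smul_zero _⟩
      add_mem' := by
        rintro a b ⟨n, hn, ha⟩ ⟨m, hm, hb⟩
        refine ⟨n * m, Nat.mul_pos hn hm, ?_⟩
        rw [smul_add, mul_comm n m, mul_smul, ha, smul_zero, zero_add, mul_comm m n, mul_smul, hb,
          smul_zero]
      smul_mem' := by
        rintro c b ⟨n, hn, hb⟩
        refine ⟨n, hn, ?_⟩
        rw [smul_comm, hb, smul_zero] }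
  obtain ⟨u, hu⟩ := (IsNoetherian.noetherian T : T.FG)
  have huT : ∀ b ∈ u, ∃ n : ℕ, 0 < n ∧ n • b = 0 := by
    intro b hb
    have : b ∈ T := by rw [← hu]; exact Submodule.subset_span hb
    exact this
  choose! n hn hnb using huT
  have he : ∃ e : ℕ, 0 < e ∧ ∀ b ∈ T, e • b = 0 := by
    refine ⟨∏ b ∈ u, n b, Finset.prod_pos hn, fun b hb => ?_⟩
    rw [← hu] at hb
    induction hb using Submodule.span_induction with
    | mem x hx =>
      have hx' : x ∈ u := hx
      rw [← Finset.prod_erase_mul _ _ hx', mul_smul, hnb x hx', smul_zero]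
    | zero => simp
    | add x y _ _ hx hy => rw [smul_add, hx, hy, add_zero]
    | smul a x _ hx => rw [smul_comm, hx, smul_zero]
  obtain ⟨e, he0, he⟩ := he
  have hTfin : (T : Set B).Finite := by
    by_contra hinf
    obtain ⟨v, hv, hvc⟩ := (show (T : Set B).Infinite from hinf).exists_subset_card_eq (e ^ r + 1)
    have := st16_card_le hr he0 v (fun b hb => he b (hv hb))
    omega
  have : Finite T := hTfin
  have : Fintype T := Fintype.ofFinite T
  have hstab : ∀ (g : Q) (b : B), b ∈ T → ρ g b ∈ T := fun g b hb => by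
    rw [← hof]; exact T.smul_mem _ hb
  have hinv : ∀ (g h : Q), g * h = 1 → ∀ b, ρ g (ρ h b) = b := by
    intro g h hgh b
    have : (ρ g * ρ h) b = (1 : AddMonoid.End B) b := by rw [← map_mul, hgh, map_one]
    exact this
  let σ : Equiv.Perm T :=
    { toFun := fun b => ⟨ρ t b, hstab t b b.2⟩
      invFun := fun b => ⟨ρ t⁻¹ b, hstab t⁻¹ b b.2⟩
      left_inv := fun b => Subtype.ext (hinv _ _ (inv_mul_cancel t) _)
      right_inv := fun b => Subtype.ext (hinv _ _ (mul_inv_cancel t) _) }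
  have hσ : ∀ (k : ℕ) (b : T), ((σ ^ k) b : B) = ((ρ t) ^ k) b := by
    intro k
    induction k with
    | zero => intro b; rfl
    | succ k ih =>
      intro b
      rw [pow_succ', pow_succ', Equiv.Perm.mul_apply]
      show ρ t ((σ ^ k) b : B) = ρ t (((ρ t) ^ k) b)
      rw [ih]
  have hord : 0 < orderOf σ := orderOf_pos σ
  have hT1 : ∀ b ∈ T, ((ρ t) ^ orderOf σ) b = b := by
    intro b hb
    have := hσ (orderOf σ) ⟨b, hb⟩
    rw [pow_orderOf_eq_one] at this
    exact this.symm
  -- the primitive polynomial for the torsion-free part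
  let E : AddMonoid.End B →ₐ[ℤ] Module.End ℤ B := (addMonoidEndRingEquivInt B).toRingHom.toIntAlgHom
  obtain ⟨g, hg, hgb⟩ := st16_exists_primitive_torsion hr (E (ρ t))
  refine ⟨(Polynomial.X ^ orderOf σ - Polynomial.C 1) * g,
    (Polynomial.monic_X_pow_sub_C 1 hord.ne').isPrimitive.mul hg, ?_⟩
  have key : ∀ b, Polynomial.aeval (ρ t) g b ∈ T := by
    intro b
    obtain ⟨n, hn, h⟩ := hgb b
    refine ⟨n, hn, ?_⟩
    have h2 : Polynomial.aeval (E (ρ t)) g = E (Polynomial.aeval (ρ t) g) :=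
      Polynomial.aeval_algHom_apply E (ρ t) g
    rw [h2] at h
    exact h
  ext b
  rw [map_mul, map_sub, map_pow, Polynomial.aeval_X, Polynomial.aeval_C, map_one]
  show (((ρ t) ^ orderOf σ - 1) (Polynomial.aeval (ρ t) g b)) = 0
  show ((ρ t) ^ orderOf σ) (Polynomial.aeval (ρ t) g b) - (Polynomial.aeval (ρ t) g b) = 0
  rw [hT1 _ (key b), sub_self]

end Pool.Agent.ST
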